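import Pool.Agent.H34.UB.Fam

set_option autoImplicit false

/-!
# [H34 UB Comp] Unit balls: isolated pieces (MP_ce02af_co)
-/

namespace Pool.Agent.H34.UB

open Pool.Agent.H44.TB

variable {n M : ℕ}

/-- The closed cone of directions. -/
def sqCl (n : ℕ) (c : ℕ × ℕ) : Set E3 :=
  {v | 0 ≤ v 2 ∧ (2 * c.1 + 1 / 2) * (ee n * v 2) ≤ v 0 ∧ v 0 ≤ (2 * c.1 + 3 / 2) * (ee n * v 2) ∧
    (2 * c.2 + 1 / 2) * (ee n * v 2) ≤ v 1 ∧ v 1 ≤ (2 * c.2 + 3 / 2) * (ee n * v 2)}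

/-- The open cone of directions. -/
def sqOp (n : ℕ) (c : ℕ × ℕ) : Set E3 :=
  {v | 0 < v 2 ∧ (2 * c.1 + 1 / 2) * (ee n * v 2) < v 0 ∧ v 0 < (2 * c.1 + 3 / 2) * (ee n * v 2) ∧
    (2 * c.2 + 1 / 2) * (ee n * v 2) < v 1 ∧ v 1 < (2 * c.2 + 3 / 2) * (ee n * v 2)}

theorem mem_sqCl {c : ℕ × ℕ} {v : E3} : v ∈ sqCl n c ↔
  0 ≤ v 2 ∧ (2 * c.1 + 1 / 2) * (ee n * v 2) ≤ v 0 ∧ v 0 ≤ (2 * c.1 + 3 / 2) * (ee n * v 2) ∧
    (2 * c.2 + 1 / 2) * (ee n * v 2) ≤ v 1 ∧ v 1 ≤ (2 * c.2 + 3 / 2) * (ee n * v 2) := Iff.rfl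

theorem mem_sqOp {c : ℕ × ℕ} {v : E3} : v ∈ sqOp n c ↔
  0 < v 2 ∧ (2 * c.1 + 1 / 2) * (ee n * v 2) < v 0 ∧ v 0 < (2 * c.1 + 3 / 2) * (ee n * v 2) ∧
    (2 * c.2 + 1 / 2) * (ee n * v 2) < v 1 ∧ v 1 < (2 * c.2 + 3 / 2) * (ee n * v 2) := Iff.rfl

theorem sqOp_subset (c : ℕ × ℕ) : sqOp n c ⊆ sqCl n c := fun _ h =>
  ⟨h.1.le, h.2.1.le, h.2.2.1.le, h.2.2.2.1.le, h.2.2.2.2.le⟩

/-- A transversal whose direction lies in the closed cone has its direction in the open cone. -/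
theorem strict (hM : 2 * n ≤ M) {j k : ℕ} (hj : j < n) (hk : k < n)
    {L : Line3} (hL : L ∈ transversalSpace (uf n M)) {v : E3}
    (hv : v ∈ L.1.direction) (hv0 : v ≠ 0) (hvc : v ∈ sqCl n (j, k)) : v ∈ sqOp n (j, k) := by
  rw [mem_sqCl] at hvc
  obtain ⟨h2, hA, hB, hC, hD⟩ := hvc
  simp only at hA hB hC hD
  have he := ee_pos (n := n)
  have hv2 : 0 < v 2 := by
    rcases h2.lt_or_eq with h | h
    · exact h
    · exfalso
      rw [← h] at hA hB hC hD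
      simp only [mul_zero] at hA hB hC hD
      apply hv0
      apply ext3
      · simp; linarith
      · simp; linarith
      · simp [← h]
  obtain ⟨p, q, hpq⟩ := line_coords L hv hv2
  obtain ⟨c1, c2, c3⟩ := cons hL hpq
  set α := v 0 / v 2 with hα
  set β := v 1 / v 2 with hβ
  have eα : v 0 = α * v 2 := by rw [hα]; field_simp
  have eβ : v 1 = β * v 2 := by rw [hβ]; field_simp
  set e := ee n with hee
  set x := α / e - (2 * j + 1) with hx
  set y := β / e - (2 * k + 1) with hy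
  have ex : α = (2 * j + 1 + x) * e := by rw [hx]; field_simp; ring
  have ey : β = (2 * k + 1 + y) * e := by rw [hy]; field_simp; ring
  have red : ∀ a b : ℝ, a * (e * v 2) ≤ b * e * v 2 → a ≤ b := fun a b h => by
    have h1 : a * (e * v 2) ≤ b * (e * v 2) := by rw [mul_assoc b] at h; exact h
    exact le_of_mul_le_mul_right h1 (mul_pos he hv2)
  have red' : ∀ a b : ℝ, b * e * v 2 ≤ a * (e * v 2) → b ≤ a := fun a b h => by
    have h1 : b * (e * v 2) ≤ a * (e * v 2) := by rw [mul_assoc b] at h; exact h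
    exact le_of_mul_le_mul_right h1 (mul_pos he hv2)
  rw [eα, ex] at hA hB
  rw [eβ, ey] at hC hD
  have x1 := red _ _ hA
  have x2 := red' _ _ hB
  have y1 := red _ _ hC
  have y2 := red' _ _ hD
  have hxa : |x| ≤ 1 / 2 := abs_le.mpr ⟨by linarith, by linarith⟩
  have hya : |y| ≤ 1 / 2 := abs_le.mpr ⟨by linarith, by linarith⟩
  -- the constraints on `p`, `q`
  have cp : -2 * p ≤ (1 - |x|) ^ 2 * e ^ 2 := by
    rcases abs_cases x with ⟨h, _⟩ | ⟨h, _⟩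
    · have := c1 (j + 1) (by omega)
      rw [h]
      push_cast at this
      rw [ex] at this
      nlinarith
    · have := c1 j (by omega)
      rw [h]
      rw [ex] at this
      nlinarith
  have cq : -2 * q ≤ (1 - |y|) ^ 2 * e ^ 2 := by
    rcases abs_cases y with ⟨h, _⟩ | ⟨h, _⟩
    · have := c2 (k + 1) (by omega)
      rw [h]
      push_cast at this
      rw [ey] at this
      nlinarith
    · have := c2 k (by omega)
      rw [h]
      rw [ey] at this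
      nlinarith
  obtain ⟨s, hs0, hs1, hs⟩ := c3 (j + k + 1) (by omega)
  have hsum : α + β - 2 * ((j + k + 1 : ℕ) : ℝ) * e = (x + y) * e := by
    rw [ex, ey]; push_cast; ring
  rw [hsum] at hs
  have hfin : 6 / 5 ≤ s ^ 2 * (x + y) ^ 2 + s * ((1 - |x|) ^ 2 + (1 - |y|) ^ 2) := by
    have he2 : 0 < e ^ 2 := by positivity
    have h1 : s * (-2 * p) ≤ s * ((1 - |x|) ^ 2 * e ^ 2) := mul_le_mul_of_nonneg_left cp hs0.le
    have h3 : s * (-2 * q) ≤ s * ((1 - |y|) ^ 2 * e ^ 2) := mul_le_mul_of_nonneg_left cq hs0.le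
    have h4 : 6 / 5 * e ^ 2 ≤
        (s ^ 2 * (x + y) ^ 2 + s * ((1 - |x|) ^ 2 + (1 - |y|) ^ 2)) * e ^ 2 := by
      have h5 : s ^ 2 * ((x + y) * e) ^ 2 = s ^ 2 * (x + y) ^ 2 * e ^ 2 := by ring
      rw [h5] at hs
      nlinarith
    exact le_of_mul_le_mul_right h4 he2
  obtain ⟨sx, sy⟩ := num hxa hya hs0 hs1 hfin
  rw [abs_lt] at sx sy
  have hp := mul_pos he hv2
  rw [mem_sqOp]
  simp only
  refine ⟨hv2, ?_, ?_, ?_, ?_⟩
  · rw [eα, ex, mul_assoc _ e]; apply mul_lt_mul_of_pos_right _ hp; linarith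
  · rw [eα, ex, mul_assoc _ e]; apply mul_lt_mul_of_pos_right _ hp; linarith
  · rw [eβ, ey, mul_assoc _ e]; apply mul_lt_mul_of_pos_right _ hp; linarith
  · rw [eβ, ey, mul_assoc _ e]; apply mul_lt_mul_of_pos_right _ hp; linarith

/-- The sample line. -/
noncomputable def smpLine (n : ℕ) (c : ℕ × ℕ) : Line3 :=
  lin ((2 * c.1 + 1) * ee n) ((2 * c.2 + 1) * ee n) (-(23 / 50 * ee n ^ 2)) (-(23 / 50 * ee n ^ 2))

/-- The inequality for the first kind. -/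
theorem smp12 {e s m A B : ℝ} (he : 0 < e) (hA : 0 ≤ A) (hB : 0 ≤ B)
    (hAe : A * e ≤ 1 / 50) (hBe : B * e ≤ 1 / 50) (he' : e ≤ 1 / 100) (hs : 99 / 100 ≤ s)
    (hs1 : s ≤ 1) (hm : 1 ≤ m ∨ m ≤ -1) :
    (1 + (A * e) ^ 2 + (B * e) ^ 2) * (2 * (23 / 50) ^ 2 * e ^ 2 + 2 * (23 / 50) * s) ≤
      (s * m + 23 / 50 * e * (A * e + B * e)) ^ 2 := by
  set g := 23 / 50 * e * (A * e + B * e) with hg
  have hAe0 : 0 ≤ A * e := by positivity
  have hBe0 : 0 ≤ B * e := by positivity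
  have g0 : 0 ≤ g := by positivity
  have g1 : g ≤ 1 / 1000 := by
    have h1 : 23 / 50 * e ≤ 23 / 5000 := by linarith
    have h2 : A * e + B * e ≤ 1 / 25 := by linarith
    calc g ≤ 23 / 5000 * (1 / 25) := mul_le_mul h1 h2 (by linarith) (by norm_num)
      _ ≤ 1 / 1000 := by norm_num
  have hR : (s - g) ^ 2 ≤ (s * m + g) ^ 2 := by
    rcases hm with hm | hm
    · apply pow_le_pow_left₀ (by linarith)
      nlinarith
    · have h1 : s - g ≤ -(s * m + g) := by nlinarith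
      calc (s - g) ^ 2 ≤ (-(s * m + g)) ^ 2 := pow_le_pow_left₀ (by linarith) h1 2
        _ = (s * m + g) ^ 2 := by ring
  have hN : 1 + (A * e) ^ 2 + (B * e) ^ 2 ≤ 1 + 1 / 1000 := by
    have h1 : (A * e) ^ 2 ≤ (1 / 50) ^ 2 := pow_le_pow_left₀ hAe0 hAe 2
    have h2 : (B * e) ^ 2 ≤ (1 / 50) ^ 2 := pow_le_pow_left₀ hBe0 hBe 2
    linarith
  have he2 : e ^ 2 ≤ 1 / 10000 := by
    have := pow_le_pow_left₀ he.le he' 2
    linarith
  have hL : (1 + (A * e) ^ 2 + (B * e) ^ 2) * (2 * (23 / 50) ^ 2 * e ^ 2 + 2 * (23 / 50) * s) ≤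
      (1 + 1 / 1000) * (2 * (23 / 50) ^ 2 * (1 / 10000) + 2 * (23 / 50) * 1) :=
    mul_le_mul hN (by nlinarith) (by positivity) (by norm_num)
  have hS : (98 / 100 : ℝ) ^ 2 ≤ (s - g) ^ 2 := pow_le_pow_left₀ (by norm_num) (by linarith) 2
  refine hL.trans (le_trans ?_ (hS.trans hR))
  norm_num

theorem smp_mem (hM : M ≤ 2 * n + 3) {c : ℕ × ℕ} (hj : c.1 < n) (hk : c.2 < n) :
    smpLine n c ∈ transversalSpace (uf n M) := by
  have he := ee_pos (n := n)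
  have he1 := ee_le (n := n)
  have hmul := ee_mul (n := n)
  have hj' : (c.1 : ℝ) + 1 ≤ n := by exact_mod_cast hj
  have hk' : (c.2 : ℝ) + 1 ≤ n := by exact_mod_cast hk
  have hj0 : (0 : ℝ) ≤ c.1 := Nat.cast_nonneg _
  have hk0 : (0 : ℝ) ≤ c.2 := Nat.cast_nonneg _
  have hAe : (2 * (c.1 : ℝ) + 1) * ee n ≤ 1 / 50 := by nlinarith
  have hBe : (2 * (c.2 : ℝ) + 1) * ee n ≤ 1 / 50 := by nlinarith
  have ht : ∀ i : Fin (n + 1), (2 * ((i : ℕ) : ℝ) * ee n) ^ 2 ≤ 1 / 100 := fun i => by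
    have h1 : ((i : ℕ) : ℝ) ≤ n := by exact_mod_cast Nat.lt_succ_iff.mp i.2
    have h2 : (0 : ℝ) ≤ ((i : ℕ) : ℝ) := Nat.cast_nonneg _
    have h3 : 2 * ((i : ℕ) : ℝ) * ee n ≤ 1 / 10 := by nlinarith
    have h4 : 0 ≤ 2 * ((i : ℕ) : ℝ) * ee n := by positivity
    nlinarith
  have hodd : ∀ (a : ℕ) (i : ℕ), (1 : ℝ) ≤ (2 * a + 1) - 2 * i ∨ (2 * (a : ℝ) + 1) - 2 * i ≤ -1 := by
    intro a i
    rcases le_or_gt i a with h | h
    · left
      have : (i : ℝ) ≤ a := by exact_mod_cast h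
      linarith
    · right
      have : (a : ℝ) + 1 ≤ i := by exact_mod_cast h
      linarith
  have he2 : 0 ≤ ee n ^ 2 := by positivity
  rintro ((i | i) | l)
  · change (_ ∩ Metric.closedBall (pt (sc (2 * (i : ℕ) * ee n)) 0
      (-(2 * (i : ℕ) * ee n) * sc (2 * (i : ℕ) * ee n))) 1).Nonempty
    rw [← bl_one]
    apply lin_meets zero_le_one
    have h1 := sc_sq (2 * ((i : ℕ) : ℝ) * ee n)
    have h2 := sc_ge (ht i)
    have h3 := sc_le_one (2 * ((i : ℕ) : ℝ) * ee n)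
    set s := sc (2 * ((i : ℕ) : ℝ) * ee n) with hs
    have key := smp12 (A := 2 * (c.1 : ℝ) + 1) (B := 2 * (c.2 : ℝ) + 1) he (by positivity)
      (by positivity) hAe hBe he1 h2 h3 (hodd c.1 i)
    have hinner : (-(23 / 50 * ee n ^ 2) - s) ^ 2 + (-(23 / 50 * ee n ^ 2) - 0) ^ 2 +
        (-(2 * ((i : ℕ) : ℝ) * ee n) * s) ^ 2 - 1 =
        ee n ^ 2 * (2 * (23 / 50) ^ 2 * ee n ^ 2 + 2 * (23 / 50) * s) := by
      have : (-(2 * ((i : ℕ) : ℝ) * ee n) * s) ^ 2 = 1 - s ^ 2 := by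
        rw [← h1]; ring
      rw [this]; ring
    have hR : ((-(23 / 50 * ee n ^ 2) - s) * ((2 * (c.1 : ℝ) + 1) * ee n) +
        (-(23 / 50 * ee n ^ 2) - 0) * ((2 * (c.2 : ℝ) + 1) * ee n) -
        -(2 * ((i : ℕ) : ℝ) * ee n) * s) ^ 2 =
        ee n ^ 2 * (s * ((2 * c.1 + 1) - 2 * ((i : ℕ) : ℝ)) + 23 / 50 * ee n *
          ((2 * (c.1 : ℝ) + 1) * ee n + (2 * (c.2 : ℝ) + 1) * ee n)) ^ 2 := by ring
    rw [hinner, hR]
    have := mul_le_mul_of_nonneg_left key he2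
    calc _ = ee n ^ 2 * ((1 + ((2 * (c.1 : ℝ) + 1) * ee n) ^ 2 +
          ((2 * (c.2 : ℝ) + 1) * ee n) ^ 2) *
          (2 * (23 / 50) ^ 2 * ee n ^ 2 + 2 * (23 / 50) * s)) := by ring
      _ ≤ _ := this
  · change (_ ∩ Metric.closedBall (pt 0 (sc (2 * (i : ℕ) * ee n))
      (-(2 * (i : ℕ) * ee n) * sc (2 * (i : ℕ) * ee n))) 1).Nonempty
    rw [← bl_one]
    apply lin_meets zero_le_one
    have h1 := sc_sq (2 * ((i : ℕ) : ℝ) * ee n)
    have h2 := sc_ge (ht i)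
    have h3 := sc_le_one (2 * ((i : ℕ) : ℝ) * ee n)
    set s := sc (2 * ((i : ℕ) : ℝ) * ee n) with hs
    have key := smp12 (A := 2 * (c.1 : ℝ) + 1) (B := 2 * (c.2 : ℝ) + 1) he (by positivity)
      (by positivity) hAe hBe he1 h2 h3 (hodd c.2 i)
    have hinner : (-(23 / 50 * ee n ^ 2) - 0) ^ 2 + (-(23 / 50 * ee n ^ 2) - s) ^ 2 +
        (-(2 * ((i : ℕ) : ℝ) * ee n) * s) ^ 2 - 1 =
        ee n ^ 2 * (2 * (23 / 50) ^ 2 * ee n ^ 2 + 2 * (23 / 50) * s) := by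
      have : (-(2 * ((i : ℕ) : ℝ) * ee n) * s) ^ 2 = 1 - s ^ 2 := by
        rw [← h1]; ring
      rw [this]; ring
    have hR : ((-(23 / 50 * ee n ^ 2) - 0) * ((2 * (c.1 : ℝ) + 1) * ee n) +
        (-(23 / 50 * ee n ^ 2) - s) * ((2 * (c.2 : ℝ) + 1) * ee n) -
        -(2 * ((i : ℕ) : ℝ) * ee n) * s) ^ 2 =
        ee n ^ 2 * (s * ((2 * c.2 + 1) - 2 * ((i : ℕ) : ℝ)) + 23 / 50 * ee n *
          ((2 * (c.1 : ℝ) + 1) * ee n + (2 * (c.2 : ℝ) + 1) * ee n)) ^ 2 := by ring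
    rw [hinner, hR]
    have := mul_le_mul_of_nonneg_left key he2
    calc _ = ee n ^ 2 * ((1 + ((2 * (c.1 : ℝ) + 1) * ee n) ^ 2 +
          ((2 * (c.2 : ℝ) + 1) * ee n) ^ 2) *
          (2 * (23 / 50) ^ 2 * ee n ^ 2 + 2 * (23 / 50) * s)) := by ring
      _ ≤ _ := this
  · change (_ ∩ Metric.closedBall (pt (-sd (ee n) (2 * (l : ℕ) * ee n))
      (-sd (ee n) (2 * (l : ℕ) * ee n))
      (2 * (l : ℕ) * ee n * sd (ee n) (2 * (l : ℕ) * ee n))) 1).Nonempty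
    rw [← bl_one]
    apply lin_meets zero_le_one
    have htl : (2 * ((l : ℕ) : ℝ) * ee n) ^ 2 ≤ 1 / 100 := by
      have h0 : (l : ℕ) + 1 ≤ 2 * n + 3 := by have := l.2; omega
      have h1 : ((l : ℕ) : ℝ) + 1 ≤ 2 * n + 3 := by exact_mod_cast h0
      have h2 : (0 : ℝ) ≤ ((l : ℕ) : ℝ) := Nat.cast_nonneg _
      have h3 : 2 * ((l : ℕ) : ℝ) * ee n ≤ 1 / 10 := by nlinarith
      have h4 : 0 ≤ 2 * ((l : ℕ) : ℝ) * ee n := by positivity
      nlinarith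
    have h1 := sd_sq (ee n) (2 * ((l : ℕ) : ℝ) * ee n)
    have h2 := sd_ge (e := ee n) htl
    set s := sd (ee n) (2 * ((l : ℕ) : ℝ) * ee n) with hs
    have hee : ee n ^ 2 ≤ 1 / 10000 := by
      have := pow_le_pow_left₀ he.le he1 2
      linarith
    have hinner : (-(23 / 50 * ee n ^ 2) - -s) ^ 2 + (-(23 / 50 * ee n ^ 2) - -s) ^ 2 +
        (2 * ((l : ℕ) : ℝ) * ee n * s) ^ 2 - 1 =
        ee n ^ 2 * (2 * (23 / 50) ^ 2 * ee n ^ 2 - 4 * (23 / 50) * s + 6 / 5) := by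
      have : (2 * ((l : ℕ) : ℝ) * ee n * s) ^ 2 = 1 + 6 / 5 * ee n ^ 2 - 2 * s ^ 2 := by
        rw [← h1]; ring
      rw [this]; ring
    rw [hinner]
    have hneg : 2 * (23 / 50) ^ 2 * ee n ^ 2 - 4 * (23 / 50) * s + 6 / 5 ≤ 0 := by linarith
    refine le_trans ?_ (sq_nonneg _)
    apply mul_nonpos_of_nonneg_of_nonpos (by positivity)
    exact mul_nonpos_of_nonneg_of_nonpos he2 hneg

theorem smp_dir (c : ℕ × ℕ) : smpLine n c ∈ dirSet (sqOp n c) := by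
  have he := ee_pos (n := n)
  refine ⟨pt ((2 * c.1 + 1) * ee n) ((2 * c.2 + 1) * ee n) 1, dir_lin _ _ _ _, pt_ne _ _, ?_⟩
  rw [mem_sqOp]
  simp only [pt_0, pt_1, pt_2, mul_one]
  refine ⟨one_pos, ?_, ?_, ?_, ?_⟩ <;> apply mul_lt_mul_of_pos_right _ he <;> linarith

theorem sep {c d : ℕ × ℕ} (h : smpLine n d ∈ dirSet (sqOp n c)) : c = d := by
  have he := ee_pos (n := n)
  obtain ⟨v, hv, hv0, hvo⟩ := h
  obtain ⟨u, hu⟩ := direction_smul (dir_lin _ _ _ _) (pt_ne _ _) hv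
  rw [mem_sqOp] at hvo
  obtain ⟨h0, h1, h2, h3, h4⟩ := hvo
  have e0 : v 0 = u * ((2 * d.1 + 1) * ee n) := by rw [hu]; simp
  have e1 : v 1 = u * ((2 * d.2 + 1) * ee n) := by rw [hu]; simp
  have e2 : v 2 = u := by rw [hu]; simp
  rw [e2] at h0 h1 h2 h3 h4
  rw [e0] at h1 h2
  rw [e1] at h3 h4
  have hp : 0 < ee n * u := mul_pos he h0
  have f : ∀ a b : ℝ, a * (ee n * u) < u * (b * ee n) → a < b := fun a b h => by
    have h' : a * (ee n * u) < b * (ee n * u) := by linarith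
    exact lt_of_mul_lt_mul_right h' hp.le
  have f' : ∀ a b : ℝ, u * (b * ee n) < a * (ee n * u) → b < a := fun a b h => by
    have h' : b * (ee n * u) < a * (ee n * u) := by linarith
    exact lt_of_mul_lt_mul_right h' hp.le
  have g1 := f _ _ h1
  have g2 := f' _ _ h2
  have g3 := f _ _ h3
  have g4 := f' _ _ h4
  have nat_eq : ∀ a b : ℕ, 2 * (a : ℝ) + 1 / 2 < 2 * b + 1 → 2 * (b : ℝ) + 1 < 2 * a + 3 / 2 →
      a = b := by
    intro a b h h'
    have i1 : (a : ℝ) < b + 1 := by linarith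
    have i2 : (b : ℝ) < a + 1 := by linarith
    have j1 : a < b + 1 := by exact_mod_cast i1
    have j2 : b < a + 1 := by exact_mod_cast i2
    omega
  exact Prod.ext (nat_eq _ _ g1 g2) (nat_eq _ _ g3 g4)

theorem sqCl_smul {c : ℕ × ℕ} {v : E3} {u : ℝ} (hu : 0 < u) (h : u • v ∈ sqCl n c) :
    v ∈ sqCl n c := by
  rw [mem_sqCl] at *
  simp only [PiLp.smul_apply, smul_eq_mul] at h
  obtain ⟨h1, h2, h3, h4, h5⟩ := h
  have e1 : ∀ x y : ℝ, x * (ee n * (u * y)) = u * (x * (ee n * y)) := fun x y => by ring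
  rw [e1] at h2 h3 h4 h5
  exact ⟨nonneg_of_mul_nonneg_right h1 hu, le_of_mul_le_mul_left h2 hu,
    le_of_mul_le_mul_left h3 hu, le_of_mul_le_mul_left h4 hu, le_of_mul_le_mul_left h5 hu⟩

theorem isClosed_sqCl (c : ℕ × ℕ) : IsClosed (sqCl n c) := by
  have h : sqCl n c = {v : E3 | 0 ≤ v 2} ∩
      ({v : E3 | (2 * c.1 + 1 / 2) * (ee n * v 2) ≤ v 0} ∩
      ({v : E3 | v 0 ≤ (2 * c.1 + 3 / 2) * (ee n * v 2)} ∩
      ({v : E3 | (2 * c.2 + 1 / 2) * (ee n * v 2) ≤ v 1} ∩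
      {v : E3 | v 1 ≤ (2 * c.2 + 3 / 2) * (ee n * v 2)}))) := rfl
  rw [h]
  exact (isClosed_le (by fun_prop) (by fun_prop)).inter
    ((isClosed_le (by fun_prop) (by fun_prop)).inter
    ((isClosed_le (by fun_prop) (by fun_prop)).inter
    ((isClosed_le (by fun_prop) (by fun_prop)).inter
    (isClosed_le (by fun_prop) (by fun_prop)))))

theorem isOpen_sqOp (c : ℕ × ℕ) : IsOpen (sqOp n c) := by
  have h : sqOp n c = {v : E3 | 0 < v 2} ∩
      ({v : E3 | (2 * c.1 + 1 / 2) * (ee n * v 2) < v 0} ∩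
      ({v : E3 | v 0 < (2 * c.1 + 3 / 2) * (ee n * v 2)} ∩
      ({v : E3 | (2 * c.2 + 1 / 2) * (ee n * v 2) < v 1} ∩
      {v : E3 | v 1 < (2 * c.2 + 3 / 2) * (ee n * v 2)}))) := rfl
  rw [h]
  exact (isOpen_lt (by fun_prop) (by fun_prop)).inter
    ((isOpen_lt (by fun_prop) (by fun_prop)).inter
    ((isOpen_lt (by fun_prop) (by fun_prop)).inter
    ((isOpen_lt (by fun_prop) (by fun_prop)).inter
    (isOpen_lt (by fun_prop) (by fun_prop)))))

/-- The lines of the transversal space with direction in the open cone form a clopen set. -/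
theorem isClopen_piece (hM : 2 * n ≤ M) {c : ℕ × ℕ} (hj : c.1 < n) (hk : c.2 < n) :
    IsClopen {L : transversalSpace (uf n M) | L.1 ∈ dirSet (sqOp n c)} := by
  constructor
  · rw [← isOpen_compl_iff]
    have hopen : IsOpen (dirSet {v : E3 | v ∉ sqCl n c ∧ -v ∉ sqCl n c}) := by
      apply isOpen_dirSet
      have h1 : IsOpen (sqCl n c)ᶜ := (isClosed_sqCl c).isOpen_compl
      exact h1.inter (h1.preimage continuous_neg)
    have : {L : transversalSpace (uf n M) | L.1 ∈ dirSet (sqOp n c)}ᶜ =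
        Subtype.val ⁻¹' dirSet {v : E3 | v ∉ sqCl n c ∧ -v ∉ sqCl n c} := by
      ext L
      simp only [Set.mem_compl_iff, Set.mem_preimage]
      change ¬ (L.1 ∈ dirSet (sqOp n c)) ↔ _
      constructor
      · intro h
        obtain ⟨v, hv, hv0⟩ := exists_direction L.1
        refine ⟨v, hv, hv0, ?_, ?_⟩
        · intro hcl
          exact h ⟨v, hv, hv0, strict hM hj hk L.2 hv hv0 hcl⟩
        · intro hcl
          have hv' : -v ∈ L.1.1.direction := Submodule.neg_mem _ hv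
          exact h ⟨-v, hv', neg_ne_zero.mpr hv0,
            strict hM hj hk L.2 hv' (neg_ne_zero.mpr hv0) hcl⟩
      · rintro ⟨v, hv, hv0, h1, h2⟩ ⟨w, hw, hw0, hwc⟩
        obtain ⟨u, rfl⟩ := direction_smul hv hv0 hw
        have hwc' := sqOp_subset c hwc
        rcases lt_trichotomy u 0 with hu | hu | hu
        · apply h2
          apply sqCl_smul (u := -u) (by linarith)
          rwa [neg_smul_neg]
        · rw [hu, zero_smul] at hw0; exact hw0 rfl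
        · exact h1 (sqCl_smul hu hwc')
    rw [this]
    exact hopen.preimage continuous_subtype_val
  · exact (isOpen_dirSet (isOpen_sqOp c)).preimage continuous_subtype_val

theorem components_ge (hM : 2 * n ≤ M) (hM2 : M ≤ 2 * n + 3) :
    ((n * n : ℕ) : ℕ∞) ≤ ENat.card (ConnectedComponents (transversalSpace (uf n M))) := by
  have h := card_le_components (X := transversalSpace (uf n M)) (I := Fin n × Fin n)
    (fun c => ⟨smpLine n (c.1, c.2), smp_mem hM2 c.1.2 c.2.2⟩)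
    (fun c => {L | L.1 ∈ dirSet (sqOp n (c.1, c.2))})
    (fun c => isClopen_piece hM c.1.2 c.2.2)
    (fun c => smp_dir _)
    (fun c d hcd => by
      have := sep hcd
      simp only [Prod.mk.injEq] at this
      exact Prod.ext (Fin.ext this.1) (Fin.ext this.2))
  refine le_trans (le_of_eq ?_) h
  rw [ENat.card_eq_coe_fintype_card]
  simp

end Pool.Agent.H34.UB
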