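import Pool.Agent.H44.TB.Base

set_option autoImplicit false

/-!
# [H34 UB Fam] Unit balls: the family and the inequalities (MP_ce02af_co)

Lines `x = p + α z`, `y = q + β z`, slopes `α = e A`, `β = e B`, `e = 1 / (100 (n + 1))`.
Unit balls through the origin with normals `(1, 0, -2 i e)`, `(0, 1, -2 i e)`, and unit balls at a
distance of about `3 e² / 5` from the origin with normals `(1, 1, -2 l e)` (on the other side).
-/

namespace Pool.Agent.H34.UB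

open Pool.Agent.H44.TB

/-- The scale of the slopes. -/
noncomputable def ee (n : ℕ) : ℝ := 1 / (100 * ((n : ℝ) + 1))
/-- Scalar for the first two kinds. -/
noncomputable def sc (t : ℝ) : ℝ := 1 / Real.sqrt (1 + t ^ 2)
/-- Scalar for the third kind. -/
noncomputable def sd (e t : ℝ) : ℝ := Real.sqrt ((1 + 6 / 5 * e ^ 2) / (2 + t ^ 2))

/-- The index type of the family. -/
abbrev Ix (n M : ℕ) : Type := (Fin (n + 1) ⊕ Fin (n + 1)) ⊕ Fin M

/-- The centres. -/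
noncomputable def cc (n M : ℕ) : Ix n M → E3
  | Sum.inl (Sum.inl i) => pt (sc (2 * (i : ℕ) * ee n)) 0 (-(2 * (i : ℕ) * ee n) * sc (2 * (i : ℕ) * ee n))
  | Sum.inl (Sum.inr i) => pt 0 (sc (2 * (i : ℕ) * ee n)) (-(2 * (i : ℕ) * ee n) * sc (2 * (i : ℕ) * ee n))
  | Sum.inr l => pt (-sd (ee n) (2 * (l : ℕ) * ee n)) (-sd (ee n) (2 * (l : ℕ) * ee n))
      (2 * (l : ℕ) * ee n * sd (ee n) (2 * (l : ℕ) * ee n))

/-- The family of unit balls. -/
noncomputable def uf (n M : ℕ) (i : Ix n M) : Set E3 := Metric.closedBall (cc n M i) 1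

variable {n M : ℕ}

theorem bl_one (x y z : ℝ) : bl x y z 1 = Metric.closedBall (pt x y z) 1 := by
  unfold bl; rw [Real.sqrt_one]

theorem ee_pos : 0 < ee n := by unfold ee; positivity

theorem ee_mul : ee n * ((n : ℝ) + 1) = 1 / 100 := by
  unfold ee; field_simp

theorem ee_le : ee n ≤ 1 / 100 := by
  have h1 := ee_pos (n := n)
  have h2 := ee_mul (n := n)
  have h3 : (0 : ℝ) ≤ n := Nat.cast_nonneg n
  nlinarith

theorem sc_pos (t : ℝ) : 0 < sc t := by unfold sc; positivity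

theorem sc_sq (t : ℝ) : sc t ^ 2 * (1 + t ^ 2) = 1 := by
  unfold sc
  rw [div_pow, one_pow, Real.sq_sqrt (by positivity)]
  field_simp

theorem sc_le_one (t : ℝ) : sc t ≤ 1 := by
  have h1 := sc_sq t
  have h2 := sc_pos t
  have h3 : 0 ≤ sc t ^ 2 * t ^ 2 := by positivity
  nlinarith

theorem sd_pos (e t : ℝ) : 0 < sd e t := by unfold sd; positivity

theorem sd_sq (e t : ℝ) : sd e t ^ 2 * (2 + t ^ 2) = 1 + 6 / 5 * e ^ 2 := by
  unfold sd
  rw [Real.sq_sqrt (by positivity)]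
  field_simp

theorem sd_le {e t : ℝ} (he : 0 < e) (he' : e ≤ 1 / 100) : sd e t ≤ 3 / 4 := by
  have h1 := sd_sq e t
  have h2 := sd_pos e t
  have h3 : 0 ≤ sd e t ^ 2 * t ^ 2 := by positivity
  by_contra hc
  rw [not_le] at hc
  have h4 : (3 / 4 : ℝ) ^ 2 < sd e t ^ 2 := by
    apply pow_lt_pow_left₀ hc (by norm_num) (by norm_num)
  nlinarith

theorem sd_ge {e t : ℝ} (ht : t ^ 2 ≤ 1 / 100) : 7 / 10 ≤ sd e t := by
  have h1 := sd_sq e t
  have h2 := sd_pos e t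
  by_contra hc
  rw [not_le] at hc
  have h4 : sd e t ^ 2 < (7 / 10 : ℝ) ^ 2 := by
    apply pow_lt_pow_left₀ hc h2.le (by norm_num)
  nlinarith [sq_nonneg e, sq_nonneg t]

theorem sc_ge {t : ℝ} (ht : t ^ 2 ≤ 1 / 100) : 99 / 100 ≤ sc t := by
  have h1 := sc_sq t
  have h2 := sc_pos t
  have h3 := sc_le_one t
  have h4 : sc t ^ 2 ≤ sc t := by nlinarith
  nlinarith [sq_nonneg t, sq_nonneg (sc t)]

/-- A line which meets a ball: the necessary condition, without the quadratic term in `(p, q)`. -/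
theorem nec {c0 c1 c2 ρ p q α β : ℝ}
    (h : (1 + α ^ 2 + β ^ 2) * ((p - c0) ^ 2 + (q - c1) ^ 2 + c2 ^ 2 - ρ) ≤
      ((p - c0) * α + (q - c1) * β - c2) ^ 2) :
    -2 * (p * c0 + q * c1) + (c0 ^ 2 + c1 ^ 2 + c2 ^ 2 - ρ) ≤ (c0 * α + c1 * β + c2) ^ 2 := by
  have hN : 0 < 1 + α ^ 2 + β ^ 2 := by positivity
  refine le_of_mul_le_mul_left ?_ hN
  nlinarith [sq_nonneg (p * β - q * α), sq_nonneg (α * (c0 * α + c1 * β + c2) + p),
    sq_nonneg (β * (c0 * α + c1 * β + c2) + q)]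

/-- The three constraints of a transversal. -/
theorem cons {L : Line3} (hL : L ∈ transversalSpace (uf n M)) {p q α β : ℝ}
    (hpq : ∀ x ∈ L.1, x 0 = p + α * x 2 ∧ x 1 = q + β * x 2) :
    (∀ i : ℕ, i ≤ n → -2 * p ≤ (α - 2 * i * ee n) ^ 2) ∧
    (∀ i : ℕ, i ≤ n → -2 * q ≤ (β - 2 * i * ee n) ^ 2) ∧
    (∀ l : ℕ, l < M → ∃ s : ℝ, 0 < s ∧ s ≤ 3 / 4 ∧
      2 * s * (p + q) + 6 / 5 * ee n ^ 2 ≤ s ^ 2 * (α + β - 2 * l * ee n) ^ 2) := by
  refine ⟨fun i hi => ?_, fun i hi => ?_, fun l hl => ?_⟩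
  · obtain ⟨x, hxL, hx⟩ := hL (Sum.inl (Sum.inl ⟨i, Nat.lt_succ_of_le hi⟩))
    change x ∈ Metric.closedBall (pt (sc (2 * (i : ℕ) * ee n)) 0
      (-(2 * (i : ℕ) * ee n) * sc (2 * (i : ℕ) * ee n))) 1 at hx
    rw [← bl_one] at hx
    have h := nec (disc_of_mem zero_le_one hx (hpq x hxL).1 (hpq x hxL).2)
    set t := 2 * (i : ℝ) * ee n with ht
    have h1 := sc_sq t
    have h2 := sc_pos t
    have h3 := sc_le_one t
    have h4 : -2 * p * sc t ≤ sc t ^ 2 * (α - t) ^ 2 := by nlinarith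
    have h5 : -2 * p ≤ sc t * (α - t) ^ 2 := by
      refine le_of_mul_le_mul_left ?_ h2
      nlinarith
    nlinarith [sq_nonneg (α - t)]
  · obtain ⟨x, hxL, hx⟩ := hL (Sum.inl (Sum.inr ⟨i, Nat.lt_succ_of_le hi⟩))
    change x ∈ Metric.closedBall (pt 0 (sc (2 * (i : ℕ) * ee n))
      (-(2 * (i : ℕ) * ee n) * sc (2 * (i : ℕ) * ee n))) 1 at hx
    rw [← bl_one] at hx
    have h := nec (disc_of_mem zero_le_one hx (hpq x hxL).1 (hpq x hxL).2)
    set t := 2 * (i : ℝ) * ee n with ht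
    have h1 := sc_sq t
    have h2 := sc_pos t
    have h3 := sc_le_one t
    have h4 : -2 * q * sc t ≤ sc t ^ 2 * (β - t) ^ 2 := by nlinarith
    have h5 : -2 * q ≤ sc t * (β - t) ^ 2 := by
      refine le_of_mul_le_mul_left ?_ h2
      nlinarith
    nlinarith [sq_nonneg (β - t)]
  · obtain ⟨x, hxL, hx⟩ := hL (Sum.inr ⟨l, hl⟩)
    change x ∈ Metric.closedBall (pt (-sd (ee n) (2 * (l : ℕ) * ee n))
      (-sd (ee n) (2 * (l : ℕ) * ee n))
      (2 * (l : ℕ) * ee n * sd (ee n) (2 * (l : ℕ) * ee n))) 1 at hx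
    rw [← bl_one] at hx
    have h := nec (disc_of_mem zero_le_one hx (hpq x hxL).1 (hpq x hxL).2)
    set t := 2 * (l : ℝ) * ee n with ht
    have h1 := sd_sq (ee n) t
    refine ⟨sd (ee n) t, sd_pos _ _, sd_le ee_pos ee_le, ?_⟩
    nlinarith

/-- The numerical fact. -/
theorem num {x y s : ℝ} (hx : |x| ≤ 1 / 2) (hy : |y| ≤ 1 / 2) (hs : 0 < s) (hs' : s ≤ 3 / 4)
    (h : 6 / 5 ≤ s ^ 2 * (x + y) ^ 2 + s * ((1 - |x|) ^ 2 + (1 - |y|) ^ 2)) :
    |x| < 1 / 2 ∧ |y| < 1 / 2 := by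
  have hxy : (x + y) ^ 2 ≤ (|x| + |y|) ^ 2 := by
    rw [← sq_abs (x + y)]
    exact pow_le_pow_left₀ (abs_nonneg _) (abs_add_le x y) 2
  have h0 := abs_nonneg x
  have h1 := abs_nonneg y
  have hss : s ^ 2 ≤ 9 / 16 := by nlinarith
  set u := |x| with hu
  set w := |y| with hw
  have h2 : s ^ 2 * (x + y) ^ 2 ≤ 9 / 16 * (u + w) ^ 2 :=
    mul_le_mul hss hxy (sq_nonneg _) (by norm_num)
  have h3 : s * ((1 - u) ^ 2 + (1 - w) ^ 2) ≤ 3 / 4 * ((1 - u) ^ 2 + (1 - w) ^ 2) :=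
    mul_le_mul_of_nonneg_right hs' (by positivity)
  constructor
  · rcases hx.lt_or_eq with h4 | h4
    · exact h4
    · exfalso
      rw [h4] at h2 h3
      nlinarith
  · rcases hy.lt_or_eq with h4 | h4
    · exact h4
    · exfalso
      rw [h4] at h2 h3
      nlinarith

end Pool.Agent.H34.UB
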