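import Pool.Agent.H34.UB.Comp

set_option autoImplicit false

/-!
# [H34 UB Fin] Unit balls: distinct centres, exactly `N` balls (MP_ce02af_co)
-/

namespace Pool.Agent.H34.UB

open Pool.Agent.H44.TB

variable {n M : ℕ}

private theorem nat_of {i j : ℕ} {e : ℝ} (he : 0 < e) (h : 2 * (i : ℝ) * e = 2 * (j : ℝ) * e) :
    i = j := by
  have h1 := mul_right_cancel₀ he.ne' h
  have h2 : (i : ℝ) = j := by linarith
  exact_mod_cast h2

theorem cc_injective : Function.Injective (cc n M) := by
  have he := ee_pos (n := n)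
  rintro ((i | i) | l) ((j | j) | m) h
  · have h0 := congrArg (fun x : E3 => x 0) h
    have h2 := congrArg (fun x : E3 => x 2) h
    simp only [cc, pt_0, pt_2] at h0 h2
    rw [h0] at h2
    have h3 := mul_right_cancel₀ (sc_pos _).ne' h2
    rw [Fin.ext (nat_of he (neg_injective h3))]
  · have h0 := congrArg (fun x : E3 => x 0) h
    simp only [cc, pt_0] at h0
    linarith [sc_pos (2 * ((i : ℕ) : ℝ) * ee n)]
  · have h0 := congrArg (fun x : E3 => x 0) h
    simp only [cc, pt_0] at h0
    linarith [sc_pos (2 * ((i : ℕ) : ℝ) * ee n), sd_pos (ee n) (2 * ((m : ℕ) : ℝ) * ee n)]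
  · have h0 := congrArg (fun x : E3 => x 0) h
    simp only [cc, pt_0] at h0
    linarith [sc_pos (2 * ((j : ℕ) : ℝ) * ee n)]
  · have h0 := congrArg (fun x : E3 => x 1) h
    have h2 := congrArg (fun x : E3 => x 2) h
    simp only [cc, pt_1, pt_2] at h0 h2
    rw [h0] at h2
    have h3 := mul_right_cancel₀ (sc_pos _).ne' h2
    rw [Fin.ext (nat_of he (neg_injective h3))]
  · have h0 := congrArg (fun x : E3 => x 1) h
    simp only [cc, pt_1] at h0
    linarith [sc_pos (2 * ((i : ℕ) : ℝ) * ee n), sd_pos (ee n) (2 * ((m : ℕ) : ℝ) * ee n)]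
  · have h0 := congrArg (fun x : E3 => x 0) h
    simp only [cc, pt_0] at h0
    linarith [sc_pos (2 * ((j : ℕ) : ℝ) * ee n), sd_pos (ee n) (2 * ((l : ℕ) : ℝ) * ee n)]
  · have h0 := congrArg (fun x : E3 => x 1) h
    simp only [cc, pt_1] at h0
    linarith [sc_pos (2 * ((j : ℕ) : ℝ) * ee n), sd_pos (ee n) (2 * ((l : ℕ) : ℝ) * ee n)]
  · have h0 := congrArg (fun x : E3 => x 0) h
    have h2 := congrArg (fun x : E3 => x 2) h
    simp only [cc, pt_0, pt_2, neg_inj] at h0 h2
    rw [h0] at h2
    have h3 := mul_right_cancel₀ (sd_pos _ _).ne' h2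
    rw [Fin.ext (nat_of he h3)]

/-- For every `N ≥ 6` there are `N` distinct closed balls of radius `1` in `ℝ³` whose space of line
transversals has at least `(N - 5)² / 16` connected components. -/
theorem unit_balls {N : ℕ} (hN : 6 ≤ N) :
    ∃ c : Fin N → E3, Function.Injective c ∧
      (((N - 5) ^ 2 : ℕ) : ℕ∞) ≤ 16 * ENat.card (ConnectedComponents
        (transversalSpace fun i => Metric.closedBall (c i) 1)) := by
  set n := (N - 2) / 4 with hn
  set M := N - 2 * (n + 1) with hM
  have hMn : 2 * n ≤ M := by omega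
  have hMn2 : M ≤ 2 * n + 3 := by omega
  have hcard : Fintype.card (Ix n M) = N := by
    simp only [Ix, Fintype.card_sum, Fintype.card_fin]; omega
  let e : Fin N ≃ Ix n M := (Fintype.equivFinOfCardEq hcard).symm
  have htr : transversalSpace (fun i => uf n M (e i)) = transversalSpace (uf n M) := by
    ext L
    constructor
    · intro h i
      have := h (e.symm i)
      simpa using this
    · intro h i
      exact h (e i)
  refine ⟨fun i => cc n M (e i), cc_injective.comp e.injective, ?_⟩
  change _ ≤ 16 * ENat.card (ConnectedComponents (transversalSpace fun i => uf n M (e i)))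
  rw [htr]
  have h2 := components_ge hMn hMn2
  have h3 : (N - 5) ^ 2 ≤ 16 * (n * n) := by
    have h4 : N - 5 ≤ 4 * n := by omega
    calc (N - 5) ^ 2 ≤ (4 * n) ^ 2 := Nat.pow_le_pow_left h4 2
      _ = 16 * (n * n) := by ring
  calc (((N - 5) ^ 2 : ℕ) : ℕ∞) ≤ ((16 * (n * n) : ℕ) : ℕ∞) := by exact_mod_cast h3
    _ = 16 * ((n * n : ℕ) : ℕ∞) := by push_cast; rfl
    _ ≤ _ := by gcongr

end Pool.Agent.H34.UB
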